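import Pool.Agent.H29.HMF.Stmts

/-!
# Row AB2 of the board hmf: few indices with equal flats
-/

set_option autoImplicit false

open Matrix MeasureTheory

namespace Pool.HMF

theorem ab2_mon (p : Bool) (M N : S2) (hM : Mon p M.1) (hN : Mon p N.1) :
    ∃ d : Fin 2 → ℝ, N.1 = M.1 * diagonal d := by
  have h0 : N = M * (M⁻¹ * N) := (mul_inv_cancel_left M N).symm
  have h1 : N.1 = M.1 * (M⁻¹ * N).1 := by
    conv_lhs => rw [h0]
    exact Matrix.SpecialLinearGroup.coe_mul _ _
  have h2 : (M⁻¹ * N).1 = M.1.adjugate * N.1 := by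
    rw [Matrix.SpecialLinearGroup.coe_mul, Matrix.SpecialLinearGroup.coe_inv]
  refine ⟨fun i => (M⁻¹ * N).1 i i, ?_⟩
  have h3 : (M⁻¹ * N).1 = diagonal (fun i => (M⁻¹ * N).1 i i) := by
    ext i j
    rw [Matrix.diagonal_apply]
    by_cases hij : i = j
    · rw [if_pos hij, hij]
    · rw [if_neg hij, h2, Matrix.adjugate_fin_two, Matrix.mul_apply, Fin.sum_univ_two]
      rcases hM with ⟨rfl, ha, hb⟩ | ⟨rfl, ha, hb⟩
      · rcases hN with ⟨_, hc, hd⟩ | ⟨hf, _, _⟩
        · fin_cases i <;> fin_cases j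
          · exact absurd rfl hij
          · simp [ha, hc]
          · simp [hb, hd]
          · exact absurd rfl hij
        · exact absurd hf (by decide)
      · rcases hN with ⟨hf, _, _⟩ | ⟨_, hc, hd⟩
        · exact absurd hf (by decide)
        · fin_cases i <;> fin_cases j
          · exact absurd rfl hij
          · simp [hb, hd]
          · simp [ha, hc]
          · exact absurd rfl hij
  rw [← h3]
  exact h1

theorem ab2_thm (hB : BASS) (hE : EQ2S) : AB2S := by
  classical
  obtain ⟨-, -, -, -, -, -, -, -, hmul, -, -, hone, -⟩ := hB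
  intro S g K hK hS S' hS' hfl
  rcases S'.eq_empty_or_nonempty with h0 | ⟨s0, hs0⟩
  · rw [h0, Finset.card_empty, Nat.cast_zero]
    positivity
  have h2 : ∀ s ∈ S', ∃ (γ : HM) (M : Fin 2 → S2) (p : Fin 2 → Bool),
      (∀ i, Mon (p i) (M i).1) ∧ ∀ i, (g s i).1 = cm i γ.1 * (g s0 i).1 * (M i).1 :=
    fun s hs => hE (g s) (g s0) (hfl s hs s0 hs0)
  choose! γ M p h3 h4 using h2
  have h6 : ∀ τ : Fin 2 → Bool, ((S'.filter fun s => p s = τ).card : ℝ) ≤ K := by
    intro τ
    rcases (S'.filter fun s => p s = τ).eq_empty_or_nonempty with h | ⟨s1, hs1⟩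
    · rw [h, Finset.card_empty, Nat.cast_zero]
      exact hK
    · rw [Finset.mem_filter] at hs1
      refine hS s1 (hS' hs1.1) _ ((Finset.filter_subset _ _).trans hS') ?_
      intro s hs
      rw [Finset.mem_filter] at hs
      have hM : ∀ i, ∃ d : Fin 2 → ℝ, (M s i).1 = (M s1 i).1 * diagonal d := by
        intro i
        have e1 := h3 s1 hs1.1 i
        have e2 := h3 s hs.1 i
        rw [hs1.2] at e1
        rw [hs.2] at e2
        exact ab2_mon _ _ _ e1 e2
      choose d hd using hM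
      refine ⟨γ s * (γ s1)⁻¹, d, fun v => ?_⟩
      have h7 : cm v (γ s * (γ s1)⁻¹).1 * (g s1 v).1 =
          cm v (γ s).1 * (g s0 v).1 * (M s1 v).1 := by
        have h8 : cm v ((γ s1)⁻¹).1 * cm v (γ s1).1 = 1 := by
          rw [← hmul, ← Matrix.SpecialLinearGroup.coe_mul, inv_mul_cancel,
            Matrix.SpecialLinearGroup.coe_one, hone]
        rw [h4 s1 hs1.1 v, Matrix.SpecialLinearGroup.coe_mul, hmul]
        calc cm v (γ s).1 * cm v ((γ s1)⁻¹).1 * (cm v (γ s1).1 * (g s0 v).1 * (M s1 v).1)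
            = cm v (γ s).1 * (cm v ((γ s1)⁻¹).1 * cm v (γ s1).1) * ((g s0 v).1 * (M s1 v).1) := by
              simp only [Matrix.mul_assoc]
          _ = cm v (γ s).1 * (g s0 v).1 * (M s1 v).1 := by
              rw [h8, Matrix.mul_one, Matrix.mul_assoc]
      rw [h4 s hs.1 v, hd v, h7]
      simp only [Matrix.mul_assoc]
  have h10 := Finset.card_eq_sum_card_fiberwise (f := p) (s := S')
    (t := (Finset.univ : Finset (Fin 2 → Bool))) (fun s _ => Finset.mem_univ _)
  rw [h10, Nat.cast_sum]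
  refine (Finset.sum_le_sum fun τ _ => h6 τ).trans ?_
  rw [Finset.sum_const, Finset.card_univ, nsmul_eq_mul, Fintype.card_fun, Fintype.card_bool,
    Fintype.card_fin]
  norm_num

end Pool.HMF
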